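import Pool.Agent.H345R2.CT.C

/-! Multiplicities of the zeros: tail bound on RH. -/

open Complex Filter Topology Set

namespace LG

open SG (ord NZ zmult ZS)
open SP

namespace CU

theorem ord_eq_of {t : ℝ} (ht : 0 < t) (h0 : riemannZeta (1 / 2 + I * t) = 0) {n : ℕ}
    (h1 : NZ t < n + zmult (1 / 2 + I * t)) (h2 : n ≤ NZ t) (hn : 1 ≤ n) : ord n = t := by
  apply le_antisymm ((SG.ord_le_iff hn t).mpr h2)
  by_contra hlt
  push Not at hlt
  have h3 := SG.NZ_add_le (ord n) t hlt.le {(1 / 2 + I * t : ℂ)} (by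
    intro s hs
    rw [Finset.mem_singleton] at hs
    subst hs
    refine ⟨⟨h0, by simp, by simp; norm_num, by simpa using ht, by simp⟩, by simpa using hlt⟩)
  rw [Finset.sum_singleton] at h3
  have h4 := SG.le_NZ_ord hn
  omega

theorem mult_le_NZ {t : ℝ} (ht : 0 < t) (h0 : riemannZeta (1 / 2 + I * t) = 0) :
    zmult (1 / 2 + I * t) ≤ NZ t := by
  have h3 := SG.NZ_add_le 0 t ht.le {(1 / 2 + I * t : ℂ)} (by
    intro s hs
    rw [Finset.mem_singleton] at hs
    subst hs
    refine ⟨⟨h0, by simp, by simp; norm_num, by simpa using ht, by simp⟩, by simpa using ht⟩)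
  rw [Finset.sum_singleton] at h3
  omega

theorem mult_tail (hRH : RHs) : ∃ c : ℝ, 0 < c ∧ ∃ m0 : ℕ, 1 ≤ m0 ∧ ∀ T : ℝ,
    ∀ m : ℕ, m0 ≤ m → ∀ A : Finset ℝ, (∀ t ∈ A, 0 < t ∧ t ≤ T ∧ riemannZeta (1 / 2 + I * t) = 0 ∧
      m ≤ zmult (1 / 2 + I * t)) →
    ((∑ t ∈ A, zmult (1 / 2 + I * t) : ℕ) : ℝ) ≤ NZ T * Real.exp (-c * m * Real.log m) := by
  classical
  obtain ⟨c, hc, m1, hm1, H⟩ := cluster_uniform hRH
  refine ⟨c / 8, by positivity, max (max 9 (3 * m1)) ⌈24 / c⌉₊,
    le_trans (by norm_num) ((le_max_left _ _).trans (le_max_left _ _)), fun T m hm A hA => ?_⟩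
  have hm9 : 9 ≤ m := ((le_max_left _ _).trans (le_max_left _ _)).trans hm
  have hm3 : 3 * m1 ≤ m := ((le_max_right _ _).trans (le_max_left _ _)).trans hm
  have hmc : 24 / c ≤ m := (Nat.le_ceil _).trans (by exact_mod_cast (le_max_right _ _).trans hm)
  set d : ℕ := m / 2 with hd
  have hd1 : m1 ≤ d := by omega
  have hd2 : 2 * d ≤ m := by omega
  have hd3 : m ≤ 3 * d := by omega
  have hd4 : 4 ≤ d := by omega
  -- the index sets
  set J : ℝ → Finset ℕ := fun t => Finset.Ioc (NZ t - zmult (1 / 2 + I * t)) (NZ t - d) with hJ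
  have hJord : ∀ t ∈ A, ∀ n ∈ J t, ∀ i : ℕ, i ≤ d → ord (n + i) = t := by
    intro t ht n hn i hi
    obtain ⟨a1, a2, a3, a4⟩ := hA t ht
    rw [hJ, Finset.mem_Ioc] at hn
    have h5 := mult_le_NZ a1 a3
    exact ord_eq_of a1 a3 (by omega) (by omega) (by omega)
  have hJdisj : ∀ t ∈ A, ∀ t' ∈ A, t ≠ t' → Disjoint (J t) (J t') := by
    intro t ht t' ht' hne
    rw [Finset.disjoint_left]
    intro n hn hn'
    apply hne
    have h1 := hJord t ht n hn 0 (by omega)
    have h2 := hJord t' ht' n hn' 0 (by omega)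
    rw [← h1, h2]
  have hcard : ∑ t ∈ A, (zmult (1 / 2 + I * t) - d) = (A.biUnion J).card := by
    rw [Finset.card_biUnion hJdisj]
    apply Finset.sum_congr rfl
    intro t ht
    obtain ⟨a1, a2, a3, a4⟩ := hA t ht
    have h5 := mult_le_NZ a1 a3
    rw [hJ, Nat.card_Ioc]
    omega
  have hfin : {n : ℕ | 1 ≤ n ∧ n ≤ NZ T ∧ ∑ i ∈ Finset.range d, del (n + i) ≤ c * d}.Finite :=
    (Set.finite_Icc 1 (NZ T)).subset fun n hn => ⟨hn.1, hn.2.1⟩
  have hsub : ((A.biUnion J : Finset ℕ) : Set ℕ) ⊆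
      {n : ℕ | 1 ≤ n ∧ n ≤ NZ T ∧ ∑ i ∈ Finset.range d, del (n + i) ≤ c * d} := by
    intro n hn
    rw [Finset.mem_coe, Finset.mem_biUnion] at hn
    obtain ⟨t, ht, hn⟩ := hn
    obtain ⟨a1, a2, a3, a4⟩ := hA t ht
    have h5 := mult_le_NZ a1 a3
    have h6 := hJord t ht n hn
    have h7 : ∑ i ∈ Finset.range d, del (n + i) = 0 := by
      apply Finset.sum_eq_zero
      intro i hi
      rw [Finset.mem_range] at hi
      unfold del
      rw [add_assoc n i 1, h6 i (by omega), h6 (i + 1) (by omega), sub_self, zero_div, zero_mul]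
    have h8 := SG.NZ_mono a2
    rw [hJ, Finset.mem_Ioc] at hn
    refine ⟨by omega, by omega, ?_⟩
    rw [h7]
    positivity
  have hle : (((A.biUnion J).card : ℕ) : ℝ) ≤ NZ T * Real.exp (-c * d * Real.log d) := by
    by_cases hN : 1 ≤ NZ T
    · refine le_trans ?_ (H (NZ T) hN d hd1)
      rw [← Set.ncard_coe_finset]
      exact_mod_cast Set.ncard_le_ncard hsub hfin
    · have h1 : A.biUnion J = ∅ := by
        rw [← Finset.coe_eq_empty, Set.eq_empty_iff_forall_notMem]
        intro n hn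
        have := hsub hn
        have h2 := this.1
        have h3 := this.2.1
        omega
      rw [h1, Finset.card_empty]
      have := Real.exp_pos (-c * d * Real.log d)
      simp only [Nat.cast_zero]
      positivity
  have hhalf : ∑ t ∈ A, zmult (1 / 2 + I * t) ≤ 2 * ∑ t ∈ A, (zmult (1 / 2 + I * t) - d) := by
    rw [Finset.mul_sum]
    apply Finset.sum_le_sum
    intro t ht
    obtain ⟨a1, a2, a3, a4⟩ := hA t ht
    omega
  rw [hcard] at hhalf
  have hhalf' : ((∑ t ∈ A, zmult (1 / 2 + I * t) : ℕ) : ℝ) ≤ 2 * ((A.biUnion J).card : ℝ) := by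
    exact_mod_cast hhalf
  -- the exponential
  have hmR : (9 : ℝ) ≤ m := by exact_mod_cast hm9
  have hdR : (m : ℝ) ≤ 3 * d := by exact_mod_cast hd3
  have hd0 : (0 : ℝ) < d := by linarith
  have hm0 : (0 : ℝ) < m := by linarith
  have hlogm : 1 ≤ Real.log m := by
    rw [Real.le_log_iff_exp_le hm0]
    have := Real.exp_one_lt_d9
    linarith
  have hlogd : 1 / 2 * Real.log m ≤ Real.log d := by
    have h1 : (m : ℝ) ≤ (d : ℝ) ^ 2 := by nlinarith
    have h2 := Real.log_le_log hm0 h1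
    rw [Real.log_pow] at h2
    push_cast at h2
    linarith
  have hexp : 2 * Real.exp (-c * d * Real.log d) ≤ Real.exp (-(c / 8) * m * Real.log m) := by
    have h1 : c / 6 * (m * Real.log m) ≤ c * d * Real.log d := by
      have h2 : (m / 3 : ℝ) * (1 / 2 * Real.log m) ≤ d * Real.log d := by
        apply mul_le_mul (by linarith) hlogd (by linarith) hd0.le
      nlinarith
    have h3 : 1 ≤ c / 24 * (m * Real.log m) := by
      rw [div_le_iff₀ hc] at hmc
      have h4 : (m : ℝ) * 1 ≤ m * Real.log m := mul_le_mul_of_nonneg_left hlogm hm0.le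
      nlinarith
    have h5 : (2 : ℝ) ≤ Real.exp 1 := by
      have := Real.exp_one_gt_d9
      linarith
    calc 2 * Real.exp (-c * d * Real.log d) ≤ Real.exp 1 * Real.exp (-c * d * Real.log d) :=
          mul_le_mul_of_nonneg_right h5 (Real.exp_pos _).le
      _ = Real.exp (1 + -c * d * Real.log d) := by rw [Real.exp_add]
      _ ≤ Real.exp (-(c / 8) * m * Real.log m) := by
        apply Real.exp_le_exp.mpr
        nlinarith
  have hN0 : (0 : ℝ) ≤ NZ T := Nat.cast_nonneg _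
  calc ((∑ t ∈ A, zmult (1 / 2 + I * t) : ℕ) : ℝ) ≤ 2 * ((A.biUnion J).card : ℝ) := hhalf'
    _ ≤ 2 * (NZ T * Real.exp (-c * d * Real.log d)) := by linarith
    _ = NZ T * (2 * Real.exp (-c * d * Real.log d)) := by ring
    _ ≤ NZ T * Real.exp (-(c / 8) * m * Real.log m) := mul_le_mul_of_nonneg_left hexp hN0

end CU

end LG
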