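import Pool.Agent.H382L.ClusterTail
import Pool.Agent.H382L.GapUnif

/-! Sums of consecutive unfolded gaps: elementary reductions. -/

open Complex Filter Topology Set MeasureTheory

namespace LG

open SG (phi hh nn dd dl ord NZ zmult)
open SP

namespace CU

/-- increments of the counting function -/
theorem NZ_inc : ∃ C : ℝ, 0 < C ∧ ∀ a : ℝ, 3 ≤ a → ∀ j : ℕ,
    (NZ (a + 2 * j) : ℝ) ≤ NZ a + C * j * Real.log (a + 2 * j) := by
  obtain ⟨C, hC, hz⟩ := H370.zcount H370.good_zeta
  refine ⟨C, hC, fun a ha j => ?_⟩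
  induction j with
  | zero => simp
  | succ j ih =>
    have hj0 : (0 : ℝ) ≤ j := Nat.cast_nonneg j
    have h1 := SG.NZ_le_add (a + 2 * j) (a + 2 * (j + 1 : ℕ)) (by linarith)
    have h3 := hz (a + 2 * j + 1) (by linarith)
    have e1 : a + 2 * j + 1 - 1 = a + 2 * j := by ring
    have e2 : a + 2 * j + 1 + 1 = a + 2 * ((j + 1 : ℕ) : ℝ) := by push_cast; ring
    rw [e1, e2] at h3
    have h4 : (NZ (a + 2 * ((j + 1 : ℕ) : ℝ)) : ℝ) ≤ NZ (a + 2 * j) +
        H370.NN riemannZeta (a + 2 * j) (a + 2 * ((j + 1 : ℕ) : ℝ)) := by exact_mod_cast h1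
    have h5 : Real.log (a + 2 * j + 1) ≤ Real.log (a + 2 * ((j + 1 : ℕ) : ℝ)) := by
      apply Real.log_le_log (by linarith)
      push_cast; linarith
    have h6 : Real.log (a + 2 * j) ≤ Real.log (a + 2 * ((j + 1 : ℕ) : ℝ)) := by
      apply Real.log_le_log (by linarith)
      push_cast; linarith
    have h7 : C * j * Real.log (a + 2 * j) ≤ C * j * Real.log (a + 2 * ((j + 1 : ℕ) : ℝ)) :=
      mul_le_mul_of_nonneg_left h6 (by positivity)
    have h8 : C * Real.log (a + 2 * j + 1) ≤ C * Real.log (a + 2 * ((j + 1 : ℕ) : ℝ)) :=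
      mul_le_mul_of_nonneg_left h5 hC.le
    have e3 : C * ((j + 1 : ℕ) : ℝ) * Real.log (a + 2 * ((j + 1 : ℕ) : ℝ)) =
        C * j * Real.log (a + 2 * ((j + 1 : ℕ) : ℝ)) +
          C * Real.log (a + 2 * ((j + 1 : ℕ) : ℝ)) := by push_cast; ring
    rw [e3]
    linarith

/-- few zeros in short intervals, in terms of the ordinates -/
theorem ord_inc : ∃ C : ℝ, 1 ≤ C ∧ ∀ n m : ℕ, 1 ≤ n → 4 ≤ ord n →
    (m : ℝ) + 1 ≤ C * (ord (n + m) - ord n + 3) * Real.log (ord (n + m) + 2) := by
  obtain ⟨C, hC, h⟩ := NZ_inc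
  refine ⟨C + 1, by linarith, fun n m hn h4 => ?_⟩
  have hmono : ord n ≤ ord (n + m) := SG.ord_mono hn (by omega)
  set a : ℝ := ord n - 1 with ha
  set b : ℝ := ord (n + m) with hb
  set j : ℕ := ⌈(b - a) / 2⌉₊ with hj
  have hj1 : (b - a) / 2 ≤ j := Nat.le_ceil _
  have hj2 : (j : ℝ) < (b - a) / 2 + 1 := Nat.ceil_lt_add_one (by rw [ha]; linarith)
  have h1 := h a (by rw [ha]; linarith) j
  have h2 : NZ a + 1 ≤ n := by
    by_contra hcon
    have h3 : n ≤ NZ a := by omega
    have h5 := (SG.ord_le_iff hn a).mpr h3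
    rw [ha] at h5
    linarith
  have h3 : n + m ≤ NZ b := SG.le_NZ_ord (by omega)
  have h5 : NZ b ≤ NZ (a + 2 * j) := SG.NZ_mono (by linarith)
  have h6 : (n : ℝ) + m ≤ NZ (a + 2 * j) := by exact_mod_cast h3.trans h5
  have h7 : (NZ a : ℝ) + 1 ≤ n := by exact_mod_cast h2
  have h8 : Real.log (a + 2 * j) ≤ Real.log (b + 2) := by
    apply Real.log_le_log
    · have : (0 : ℝ) ≤ j := Nat.cast_nonneg j
      rw [ha]; linarith
    · linarith
  have h9 : 0 ≤ Real.log (b + 2) := Real.log_nonneg (by linarith)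
  have h10 : C * j * Real.log (a + 2 * j) ≤ C * j * Real.log (b + 2) :=
    mul_le_mul_of_nonneg_left h8 (by positivity)
  have h11 : C * j * Real.log (b + 2) ≤ C * (b - ord n + 3) * Real.log (b + 2) := by
    apply mul_le_mul_of_nonneg_right _ h9
    apply mul_le_mul_of_nonneg_left _ hC.le
    rw [ha] at hj2
    linarith
  have h12 : 0 ≤ (b - ord n + 3) * Real.log (b + 2) := by
    apply mul_nonneg _ h9
    linarith
  have e : (C + 1) * (b - ord n + 3) * Real.log (b + 2) =
      C * (b - ord n + 3) * Real.log (b + 2) + (b - ord n + 3) * Real.log (b + 2) := by ring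
  rw [e]
  linarith

/-- consecutive ordinates do not double -/
theorem ord_succ_le : ∃ T0 : ℝ, 10 ≤ T0 ∧ ∀ n : ℕ, 1 ≤ n → T0 ≤ ord n → ord (n + 1) ≤ 2 * ord n := by
  obtain ⟨C, T0, hC, hT0, h⟩ := H370.nn_asymp H370.good_zeta
  have hpi3 := Real.pi_gt_three
  have hpi4 := Real.pi_lt_four
  obtain ⟨T2, hT2⟩ := (tendsto_atTop.mp Real.tendsto_log_atTop (20 * C + 20)).exists_forall_of_atTop
  refine ⟨max T0 T2, hT0.trans (le_max_left _ _), fun n hn hT => ?_⟩
  set T := ord n with hTdef
  have hTT0 : T0 ≤ T := (le_max_left _ _).trans hT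
  have hl := hT2 T ((le_max_right _ _).trans hT)
  have hTpos : 10 ≤ T := hT0.trans hTT0
  have h1 := h T hTT0 T (2 * T) le_rfl (by linarith) (by linarith) le_rfl
  have h2 := (abs_le.mp h1).1
  have hfin : (H370.zset riemannZeta T (2 * T)).Finite :=
    H370.zset_finite H370.good_zeta T (2 * T) (by linarith)
  have h3 : NZ T + H370.NN riemannZeta T (2 * T) ≤ NZ (2 * T) := by
    have h4 := SG.NZ_add_le T (2 * T) (by linarith) hfin.toFinset (by
      intro s hs
      rw [Set.Finite.mem_toFinset] at hs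
      obtain ⟨s1, s2, s3, s4, s5⟩ := hs
      exact ⟨⟨s5, s1, s2, by linarith, s4⟩, s3⟩)
    have h5 : H370.NN riemannZeta T (2 * T) = ∑ s ∈ hfin.toFinset, zmult s := by
      unfold H370.NN
      rw [finsum_mem_eq_finite_toFinset_sum _ hfin]
      rfl
    rw [h5]
    exact h4
  have h7 : T * Real.log T / 8 ≤ T * Real.log T / (2 * Real.pi) := by
    have : 0 ≤ T * Real.log T := by
      have : 0 ≤ Real.log T := by nlinarith
      positivity
    apply div_le_div_of_nonneg_left this (by positivity) (by linarith)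
  have h8 : C * T + T ≤ T * Real.log T / 20 := by nlinarith
  have h9 : (0 : ℝ) < (H370.NN riemannZeta T (2 * T) : ℝ) := by
    have h10 : 0 ≤ T * Real.log T := by
      have : 0 ≤ Real.log T := by nlinarith
      positivity
    linarith
  have h10 : 0 < H370.NN riemannZeta T (2 * T) := by exact_mod_cast h9
  have h11 : n ≤ NZ T := SG.le_NZ_ord hn
  exact (SG.ord_le_iff (by omega) _).mpr (by omega)

/-- the unfolded gap of MP_7eacff -/
noncomputable def del (n : ℕ) : ℝ :=
  (ord (n + 1) - ord n) / (2 * Real.pi) * Real.log (ord n / (2 * Real.pi))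

/-- if the sum of `m` consecutive unfolded gaps is at most `c m` then the cluster is short -/
theorem short_of_sum : ∃ c0 K T0 : ℝ, 0 < c0 ∧ 1 ≤ K ∧ 10 ≤ T0 ∧ ∀ n m : ℕ, 1 ≤ n → 1 ≤ m →
    T0 ≤ ord n → ∀ c : ℝ, 0 ≤ c → c ≤ c0 → ∑ i ∈ Finset.range m, del (n + i) ≤ c * m →
    (m : ℝ) ≤ K * Real.log (ord n) ∧ ord (n + m) - ord n ≤ 1 ∧
      ord (n + m) - ord n ≤ 32 * c * m / Real.log (ord n) := by
  obtain ⟨C, hC, hinc⟩ := ord_inc
  obtain ⟨T1, hT1, hsucc⟩ := ord_succ_le
  have hpi3 := Real.pi_gt_three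
  have hpi4 := Real.pi_lt_four
  refine ⟨1 / (400 * C), 24 * C, max T1 100, by positivity, by linarith,
    hT1.trans (le_max_left _ _), fun n m hn hm hT c hc0 hc hsum => ?_⟩
  have hTT1 : T1 ≤ ord n := (le_max_left _ _).trans hT
  have hT100 : 100 ≤ ord n := (le_max_right _ _).trans hT
  have hge : ∀ i : ℕ, ord n ≤ ord (n + i) := fun i => SG.ord_mono hn (by omega)
  -- each term
  have hterm : ∀ i : ℕ, (ord (n + i + 1) * Real.log (ord (n + i + 1)) -
      ord (n + i) * Real.log (ord (n + i))) / (8 * Real.pi) ≤ del (n + i) := by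
    intro i
    have g1 := hge i
    have g2 := hsucc (n + i) (by omega) (hTT1.trans g1)
    have g3 : ord (n + i) ≤ ord (n + i + 1) := SG.ord_mono (by omega) (by omega)
    have g4 : 100 ≤ ord (n + i) := hT100.trans g1
    have hp : 0 < ord (n + i) := by linarith
    have hp' : 0 < ord (n + i + 1) := by linarith
    set x := ord (n + i) with hx
    set y := ord (n + i + 1) with hy
    have hlogx : 4 ≤ Real.log x := by
      rw [Real.le_log_iff_exp_le hp]
      have e1 : Real.exp 4 = Real.exp 1 ^ 4 := by rw [← Real.exp_nat_mul]; norm_num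
      have e2 := Real.exp_one_lt_d9
      have e3 : Real.exp 1 ^ 4 ≤ 2.7182818286 ^ 4 :=
        pow_le_pow_left₀ (Real.exp_pos 1).le e2.le 4
      rw [e1]
      refine e3.trans (le_trans ?_ g4)
      norm_num
    have h9 : y * Real.log y - x * Real.log x ≤ (y - x) * (1 + Real.log y) := by
      have h10 := Real.one_sub_inv_le_log_of_pos (div_pos hp hp')
      rw [Real.log_div hp.ne' hp'.ne', inv_div] at h10
      have h11 := mul_le_mul_of_nonneg_left h10 hp.le
      have h12 : x * (1 - y / x) = x - y := by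
        field_simp
      rw [h12] at h11
      nlinarith
    have h13 : 1 + Real.log y ≤ 2 * Real.log x := by
      have h14 : Real.log y ≤ Real.log (2 * x) := Real.log_le_log hp' g2
      rw [Real.log_mul (by norm_num) hp.ne'] at h14
      have := Real.log_two_lt_d9
      linarith
    have h15 : Real.log x ≤ 2 * Real.log (x / (2 * Real.pi)) := by
      rw [Real.log_div hp.ne' (by positivity)]
      have h16 : Real.log (2 * Real.pi) ≤ 2 := by
        rw [Real.log_le_iff_le_exp (by positivity)]
        have e1 : Real.exp 2 = Real.exp 1 ^ 2 := by rw [← Real.exp_nat_mul]; norm_num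
        have e2 := Real.exp_one_gt_d9
        have e3 : (2.7182818283 : ℝ) ^ 2 ≤ Real.exp 1 ^ 2 :=
          pow_le_pow_left₀ (by norm_num) e2.le 2
        rw [e1]
        have := Real.pi_lt_d2
        norm_num at e3
        linarith
      linarith
    have hyx : 0 ≤ y - x := by linarith
    unfold del
    rw [← hx, show n + i + 1 = (n + i) + 1 from rfl, ← hy, div_le_iff₀ (by positivity)]
    have e5 : (y - x) / (2 * Real.pi) * Real.log (x / (2 * Real.pi)) * (8 * Real.pi) =
        (y - x) * (4 * Real.log (x / (2 * Real.pi))) := by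
      field_simp
      ring
    rw [e5]
    refine h9.trans (mul_le_mul_of_nonneg_left ?_ hyx)
    linarith
  have htel : ∑ i ∈ Finset.range m, (ord (n + i + 1) * Real.log (ord (n + i + 1)) -
      ord (n + i) * Real.log (ord (n + i))) / (8 * Real.pi) =
      (ord (n + m) * Real.log (ord (n + m)) - ord n * Real.log (ord n)) / (8 * Real.pi) := by
    rw [← Finset.sum_div]
    congr 1
    have := Finset.sum_range_sub (fun i => ord (n + i) * Real.log (ord (n + i))) m
    simp only [add_zero] at this
    rw [← this]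
    rfl
  have h1 := (Finset.sum_le_sum fun i (_ : i ∈ Finset.range m) => hterm i)
  rw [htel] at h1
  have h2 := h1.trans hsum
  have hab := hge m
  set a := ord n with ha
  set b := ord (n + m) with hb
  have ha0 : 0 < a := by linarith
  have hb0 : 0 < b := by linarith
  have hloga : 0 < Real.log a := Real.log_pos (by linarith)
  have hlogab : Real.log a ≤ Real.log b := Real.log_le_log ha0 hab
  have hlogb : 0 < Real.log b := by linarith
  have hm0 : (0 : ℝ) < m := by exact_mod_cast hm
  have h3 : (b - a) * Real.log b ≤ 32 * c * m := by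
    rw [div_le_iff₀ (by positivity)] at h2
    have h4 : (b - a) * Real.log b ≤ b * Real.log b - a * Real.log a := by
      nlinarith
    have h5 : c * m * (8 * Real.pi) ≤ 32 * c * m := by
      have : 0 ≤ c * m := by positivity
      nlinarith
    linarith
  have h4 := hinc n m hn (by linarith)
  rw [← ha, ← hb] at h4
  have h5 : Real.log (b + 2) ≤ 2 * Real.log b := by
    have h6 : Real.log (b + 2) ≤ Real.log (b ^ 2) := Real.log_le_log (by linarith) (by nlinarith)
    rw [Real.log_pow] at h6
    push_cast at h6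
    exact h6
  have h6 : (m : ℝ) + 1 ≤ 2 * C * ((b - a) * Real.log b) + 6 * C * Real.log b := by
    have : C * (b - a + 3) * Real.log (b + 2) ≤ C * (b - a + 3) * (2 * Real.log b) :=
      mul_le_mul_of_nonneg_left h5 (by
        apply mul_nonneg (by linarith); linarith)
    have e : C * (b - a + 3) * (2 * Real.log b) =
        2 * C * ((b - a) * Real.log b) + 6 * C * Real.log b := by ring
    linarith
  have hcC : c * (400 * C) ≤ 1 := by
    rwa [le_div_iff₀ (by positivity)] at hc
  have h7 : (m : ℝ) ≤ 12 * C * Real.log b := by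
    have h8 : 2 * C * ((b - a) * Real.log b) ≤ 2 * C * (32 * c * m) :=
      mul_le_mul_of_nonneg_left h3 (by linarith)
    have h9 : 2 * C * (32 * c * m) ≤ m / 2 := by
      have : 2 * C * (32 * c * m) = (c * (400 * C)) * (64 / 400 * m) := by ring
      rw [this]
      have : (c * (400 * C)) * (64 / 400 * m) ≤ 1 * (64 / 400 * m) :=
        mul_le_mul_of_nonneg_right hcC (by positivity)
      linarith
    linarith
  have h8 : b - a ≤ 1 := by
    have h9 : (b - a) * Real.log b ≤ 1 * Real.log b := by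
      refine h3.trans ?_
      have h10 : 32 * c * m ≤ 32 * c * (12 * C * Real.log b) :=
        mul_le_mul_of_nonneg_left h7 (by positivity)
      have h11 : 32 * c * (12 * C * Real.log b) = (c * (400 * C)) * (384 / 400 * Real.log b) := by
        ring
      have h12 : (c * (400 * C)) * (384 / 400 * Real.log b) ≤ 1 * (384 / 400 * Real.log b) :=
        mul_le_mul_of_nonneg_right hcC (by positivity)
      linarith
    exact le_of_mul_le_mul_right h9 hlogb
  have h9 : Real.log b ≤ 2 * Real.log a := by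
    have h10 : Real.log b ≤ Real.log (a ^ 2) := Real.log_le_log hb0 (by nlinarith)
    rw [Real.log_pow] at h10
    push_cast at h10
    exact h10
  refine ⟨?_, h8, ?_⟩
  · nlinarith
  · rw [le_div_iff₀ hloga]
    refine le_trans ?_ h3
    apply mul_le_mul_of_nonneg_left hlogab
    linarith

end CU

end LG
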