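import Pool.Agent.H345R2.CT.A

/-! Dense clusters of zeros with length proportional to the number of zeros. -/

open Complex Filter Topology Set MeasureTheory

namespace LG

open SG (phi hh nn dd dl ord NZ zmult)
open SP

namespace CU

open CTAux

/-- counting with the scale `k` -/
theorem Mk_countk {T t : ℝ} {k : ℕ} (hT : 1 ≤ T) (hL : 1 ≤ Real.log T) (hk : 1 ≤ k)
    (hkL : (k : ℝ) ≤ Real.log T) {a b : ℕ}
    (ha : 1 ≤ a) (hab : a ≤ b) (h1 : T < ord a) (h2 : ord b ≤ 2 * T)
    (h3 : t - 2 * k / Real.log T ≤ ord a) (h4 : ord b ≤ t + 2 * k / Real.log T) :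
    (b : ℝ) - a + 1 ≤ 5 * Real.exp 2 * Mk T k t := by
  have h5 := zeros_between hT ha hab h1 h2
  have hL0 : 0 < Real.log T := by linarith
  have hk0 : (0 : ℝ) < k := by exact_mod_cast hk
  have h6 : (∑ s ∈ (Mom2.ZZ_finite T hT).toFinset.filter
      (fun s => ord a ≤ s.im ∧ s.im ≤ ord b), (mu s : ℝ)) * (Real.exp (-2) / 5) ≤
      Mk T k t := by
    rw [CTAux.Mk_eq T k t hT, Finset.sum_mul]
    calc _ ≤ ∑ s ∈ (Mom2.ZZ_finite T hT).toFinset.filter
          (fun s => ord a ≤ s.im ∧ s.im ≤ ord b),
          (mu s : ℝ) * Real.exp (-(s.im - t) ^ 2 / 2) /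
            (1 + (Real.log T * (s.im - t) / k) ^ 2) := by
          apply Finset.sum_le_sum
          intro s hs
          rw [Finset.mem_filter] at hs
          obtain ⟨_, hs1, hs2⟩ := hs
          have hd : |s.im - t| ≤ 2 * k / Real.log T := by
            rw [abs_le]; constructor <;> linarith
          have hd2 : |Real.log T * (s.im - t) / k| ≤ 2 := by
            rw [abs_div, abs_mul, abs_of_pos hL0, abs_of_pos hk0, div_le_iff₀ hk0]
            calc Real.log T * |s.im - t| ≤ Real.log T * (2 * k / Real.log T) :=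
                  mul_le_mul_of_nonneg_left hd hL0.le
              _ = 2 * k := by field_simp
          have hsq : (Real.log T * (s.im - t) / k) ^ 2 ≤ 4 := by
            rw [← sq_abs]
            have := pow_le_pow_left₀ (abs_nonneg _) hd2 2
            linarith
          have hd3 : |s.im - t| ≤ 2 := by
            refine hd.trans ?_
            rw [div_le_iff₀ hL0]
            linarith
          have hsq2 : (s.im - t) ^ 2 ≤ 4 := by
            rw [← sq_abs]
            have := pow_le_pow_left₀ (abs_nonneg _) hd3 2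
            linarith
          rw [mul_div_assoc]
          apply mul_le_mul_of_nonneg_left _ (Nat.cast_nonneg _)
          apply div_le_div₀ (Real.exp_pos _).le _ (by positivity) (by linarith)
          apply Real.exp_le_exp.mpr
          linarith
      _ ≤ _ := by
          apply Finset.sum_le_sum_of_subset_of_nonneg (Finset.filter_subset _ _)
          intro s _ _
          positivity
  have h9 : 5 * Real.exp 2 * (Real.exp (-2) / 5) = 1 := by
    rw [Real.exp_neg]
    field_simp
  calc (b : ℝ) - a + 1 ≤ _ := h5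
    _ = 5 * Real.exp 2 * ((∑ s ∈ (Mom2.ZZ_finite T hT).toFinset.filter
      (fun s => ord a ≤ s.im ∧ s.im ≤ ord b), (mu s : ℝ)) * (Real.exp (-2) / 5)) := by
        rw [mul_left_comm, h9, mul_one]
    _ ≤ _ := mul_le_mul_of_nonneg_left h6 (by positivity)

/-- the bulk estimate for clusters of length proportional to `m` -/
theorem bulk (hRH : RHs) (K : ℝ) (hK : 1 ≤ K) : ∃ C T0 : ℝ, 1 ≤ C ∧ 100 ≤ T0 ∧
    ∀ T : ℝ, T0 ≤ T → ∀ m : ℕ, C ≤ m → (m : ℝ) ≤ K * Real.log T → ∀ N : Finset ℕ,
    (∀ n ∈ N, 1 ≤ n ∧ T + 3 * Real.log T ≤ ord n ∧ ord n ≤ 2 * T - 3 * Real.log T ∧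
      ord (n + m) - ord n ≤ m / (C * Real.log T)) →
    (N.card : ℝ) ≤ C * (C / m) ^ ((m : ℝ) / C) * (T * Real.log T) := by
  obtain ⟨CM, TM, hCM, hTM, hM⟩ := Mk_bound hRH (1 / 4) (by norm_num) (by norm_num)
  obtain ⟨CQ, TQ, hCQ, hTQ, hQ⟩ := leb_mom (1 / 4) (by norm_num) (by norm_num)
  obtain ⟨TL, hTL, hlog⟩ := log_ev 1
  set RA : ℝ := 5 * Real.exp 2 with hRA
  have hRA0 : 0 < RA := by positivity
  -- `D0`: `k ≥ m / D0`
  set D1 : ℝ := max (2 * CM * RA) K with hD1
  have hD10 : 0 < D1 := lt_of_lt_of_le (by linarith) (le_max_right _ _)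
  have hD1a : 2 * CM * RA ≤ D1 := le_max_left _ _
  have hD1b : K ≤ D1 := le_max_right _ _
  set D0 : ℝ := 2 * D1 with hD0
  have hD00 : 0 < D0 := by positivity
  set C : ℝ := max (max 1 (24 * CM)) (max D0 (2 * CQ * D0)) with hC
  have hC11 : 1 ≤ C := (le_max_left _ _).trans (le_max_left _ _)
  have hC24 : 24 * CM ≤ C := (le_max_right _ _).trans (le_max_left _ _)
  have hC1D : D0 ≤ C := (le_max_left _ _).trans (le_max_right _ _)
  have hC1Q : 2 * CQ * D0 ≤ C := (le_max_right _ _).trans (le_max_right _ _)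
  refine ⟨C, max TL (max TM TQ), hC11, hTL.trans (le_max_left _ _), ?_⟩
  intro T hT m hmC hmK N hN
  have hT1 : TL ≤ T := (le_max_left _ _).trans hT
  have hT2 : TM ≤ T := ((le_max_left _ _).trans (le_max_right _ _)).trans hT
  have hT3 : TQ ≤ T := ((le_max_right _ _).trans (le_max_right _ _)).trans hT
  have hT100 : 100 ≤ T := hTL.trans hT1
  obtain ⟨hL1, hLT⟩ := hlog T hT1
  set L := Real.log T with hLd
  have hL0 : 0 < L := by linarith
  have hTone : 1 ≤ T := by linarith
  have hV : T + 2 * L ≤ 2 * T - 2 * L := by linarith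
  have hinv : 1 / L ≤ 1 := by rw [div_le_one hL0]; exact hL1
  have hinv0 : 0 < 1 / L := by positivity
  have hm0 : (0 : ℝ) < m := by linarith
  -- the number of indices near `t`
  have hcard : ∀ t : ℝ, ((N.filter (fun n => |ord n - t| ≤ 1 / L)).card : ℝ) ≤ 4 * Mk T 1 t := by
    intro t
    apply card_near hTone hL1
    intro n hn
    rw [Finset.mem_filter] at hn
    obtain ⟨h1, h2, h3, _⟩ := hN n hn.1
    exact ⟨h1, by linarith, by linarith, hn.2⟩
  set k : ℕ := ⌊(m : ℝ) / D1⌋₊ with hk
  have hk1 : (k : ℝ) ≤ m / D1 := Nat.floor_le (by positivity)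
  have hk2 : (m : ℝ) / D1 < k + 1 := Nat.lt_floor_add_one _
  have hkD : (m : ℝ) / D0 ≤ k := by
    have h1 : (1 : ℝ) ≤ m / D0 := by
      rw [le_div_iff₀ hD00]; linarith
    have h2 : (m : ℝ) / D1 = 2 * (m / D0) := by
      rw [hD0]; field_simp
    rw [h2] at hk2
    linarith
  have hk1' : 1 ≤ k := by
    have h1 : (1 : ℝ) ≤ m / D0 := by
      rw [le_div_iff₀ hD00]; linarith
    have h2 : (1 : ℝ) ≤ k := h1.trans hkD
    exact_mod_cast h2
  have hk0 : (0 : ℝ) < k := by exact_mod_cast hk1'
  have hk1r : (1 : ℝ) ≤ k := by exact_mod_cast hk1'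
  have hkL : (k : ℝ) ≤ L := by
    refine hk1.trans ?_
    rw [div_le_iff₀ hD10]
    nlinarith
  have h1 : (N.card : ℝ) * 2 ≤ (8 * CM * k * (6 * T * (CQ / k) ^ k)) * L := by
    apply count_int hL1 N (fun t => 8 * CM * k * ‖Q1 (1 / 4) T k t‖ ^ (2 * k)) hV
    · have := Q1_cont (1 / 4) T k
      exact continuous_const.mul (this.norm.pow _)
    · intro n hn
      exact ⟨(hN n hn).2.1, (hN n hn).2.2.1⟩
    · intro t ht1 ht2
      by_cases hne : (N.filter (fun n => |ord n - t| ≤ 1 / L)).Nonempty
      · obtain ⟨n, hn⟩ := hne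
        rw [Finset.mem_filter] at hn
        obtain ⟨hn1, hn2, hn3, hn4⟩ := hN n hn.1
        have hnt := abs_le.mp hn.2
        have hw : ord (n + m) - ord n ≤ k / L := by
          refine hn4.trans ?_
          rw [div_le_div_iff₀ (by positivity) hL0]
          have : (m : ℝ) ≤ k * C := by
            have h5 := (div_le_iff₀ hD00).mp hkD
            nlinarith
          nlinarith
        have hkL2 : (k : ℝ) / L ≤ 1 := by rw [div_le_one hL0]; exact hkL
        have hkL3 : 1 / L ≤ k / L := div_le_div_of_nonneg_right hk1r hL0.le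
        have e2 : 2 * (k : ℝ) / L = k / L + k / L := by ring
        have h2 : (((n + m : ℕ) : ℝ)) - n + 1 ≤ RA * Mk T k t := by
          apply Mk_countk hTone hL1 hk1' hkL hn1 (by omega) (by linarith) (by linarith)
          · rw [← hLd, e2]; linarith
          · rw [← hLd, e2]; linarith
        push_cast at h2
        have h3 := Mk_mono_k T t k hk1' hTone
        have h4 := hM T hT2 t (by linarith) (by linarith) k hk1'
        set q := ‖Q1 (1 / 4) T k t‖ with hq
        have h5 : (m : ℝ) < RA * (CM * k * (1 + q)) := by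
          have : RA * Mk T k t ≤ RA * (CM * k * (1 + q)) :=
            mul_le_mul_of_nonneg_left h4 hRA0.le
          linarith
        have h6 : (k : ℝ) * (2 * CM * RA) ≤ m := by
          have h61 := (le_div_iff₀ hD10).mp hk1
          have h62 : (k : ℝ) * (2 * CM * RA) ≤ k * D1 := mul_le_mul_of_nonneg_left hD1a hk0.le
          linarith
        have h7 : 1 ≤ q := by
          by_contra hcon
          rw [not_le] at hcon
          have h8 : RA * (CM * k * (1 + q)) < RA * (CM * k * 2) := by
            apply mul_lt_mul_of_pos_left _ hRA0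
            apply mul_lt_mul_of_pos_left _ (by positivity)
            linarith
          have h9 : RA * (CM * k * 2) = k * (2 * CM * RA) := by ring
          rw [h9] at h8
          linarith
        have h8 : q ≤ q ^ (2 * k) := le_self_pow₀ h7 (by omega)
        have h9 : 4 * Mk T 1 t ≤ 4 * (CM * k * (1 + q)) := by linarith
        calc _ ≤ 4 * (CM * k * (1 + q)) := (hcard t).trans h9
          _ ≤ 4 * (CM * k * (2 * q ^ (2 * k))) := by
              apply mul_le_mul_of_nonneg_left _ (by norm_num)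
              apply mul_le_mul_of_nonneg_left _ (by positivity)
              linarith
          _ = _ := by ring
      · rw [Finset.not_nonempty_iff_eq_empty] at hne
        rw [hne]
        simp only [Finset.card_empty, Nat.cast_zero]
        positivity
    · have h5 := hQ T hT3 k hk1' (T + 2 * L) (2 * T - 2 * L) (by linarith) hV (by linarith)
      rw [intervalIntegral.integral_const_mul]
      exact mul_le_mul_of_nonneg_left h5 (by positivity)
  -- `k (CQ/k)^k ≤ (2 CQ/k)^k`
  have h2 : (k : ℝ) * (CQ / k) ^ k ≤ (2 * CQ / k) ^ k := by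
    have e1 : (2 * CQ / k) ^ k = 2 ^ k * (CQ / k) ^ k := by
      rw [← mul_pow]; congr 1; ring
    rw [e1]
    apply mul_le_mul_of_nonneg_right _ (by positivity)
    exact_mod_cast (Nat.lt_two_pow_self (n := k)).le
  have h3 : (2 * CQ / k) ^ k ≤ (C / m) ^ ((m : ℝ) / C) := by
    have b0 : 2 * CQ / k ≤ C / m := by
      rw [div_le_div_iff₀ hk0 hm0]
      have : (m : ℝ) ≤ k * D0 := (div_le_iff₀ hD00).mp hkD
      calc 2 * CQ * m ≤ 2 * CQ * (k * D0) := mul_le_mul_of_nonneg_left this (by positivity)
        _ = (2 * CQ * D0) * k := by ring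
        _ ≤ C * k := mul_le_mul_of_nonneg_right hC1Q hk0.le
    have b1 : C / m ≤ 1 := by rw [div_le_one hm0]; exact hmC
    have b2 : 0 < C / m := by positivity
    calc (2 * CQ / k) ^ k ≤ (C / m) ^ k := pow_le_pow_left₀ (by positivity) b0 k
      _ = (C / m) ^ (k : ℝ) := (Real.rpow_natCast _ _).symm
      _ ≤ (C / m) ^ ((m : ℝ) / C) := by
          apply Real.rpow_le_rpow_of_exponent_ge b2 b1
          refine le_trans ?_ hkD
          apply div_le_div_of_nonneg_left hm0.le hD00 hC1D
  have h4 : (N.card : ℝ) ≤ 24 * CM * (C / m) ^ ((m : ℝ) / C) * (T * L) := by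
    have h5 : (8 * CM * k * (6 * T * (CQ / k) ^ k)) * L =
        2 * (24 * CM * (k * (CQ / k) ^ k) * (T * L)) := by ring
    rw [h5] at h1
    have h6 : 24 * CM * (k * (CQ / k) ^ k) * (T * L) ≤
        24 * CM * (C / m) ^ ((m : ℝ) / C) * (T * L) := by
      apply mul_le_mul_of_nonneg_right _ (by positivity)
      exact mul_le_mul_of_nonneg_left (h2.trans h3) (by positivity)
    linarith
  refine h4.trans ?_
  have h5 : 0 ≤ (C / m) ^ ((m : ℝ) / C) := by positivity
  apply mul_le_mul_of_nonneg_right _ (by positivity)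
  exact mul_le_mul_of_nonneg_right hC24 h5

end CU

end LG
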