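import Pool.Agent.H345R2.CT.B

/-! Uniform bound for the frequency of dense clusters of zeros. -/

open Complex Filter Topology Set MeasureTheory

namespace LG

open SG (phi hh nn dd dl ord NZ zmult)
open SP

namespace CU

/-- summation over blocks -/
theorem sum_blocks (P : ℕ → Prop) (B T1 : ℝ) (hB0 : 0 ≤ B) (hT1 : 10 ≤ T1)
    (hb : ∀ T : ℝ, T1 ≤ T →
      ({n : ℕ | 1 ≤ n ∧ T ≤ ord n ∧ ord n ≤ 3 / 2 * T ∧ P n}.ncard : ℝ) ≤ B * (T * Real.log T)) :
    ∀ T2 : ℝ, 2 * T1 ≤ T2 → ∀ Y : ℝ, 1 ≤ Y →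
    ({n : ℕ | 1 ≤ n ∧ T2 < ord n ∧ ord n ≤ Y ∧ P n}.ncard : ℝ) ≤ 3 * B * (Y * Real.log Y) := by
  intro T2 hT2
  have hT20 : 0 < T2 := by linarith
  have key : ∀ m : ℕ, ∀ Y : ℝ, 1 ≤ Y → Y ≤ (3 / 2 : ℝ) ^ m * T2 →
      ({n : ℕ | 1 ≤ n ∧ T2 < ord n ∧ ord n ≤ Y ∧ P n}.ncard : ℝ) ≤
      3 * B * (Y * Real.log Y) := by
    have hsmall : ∀ Y : ℝ, 1 ≤ Y → Y ≤ T2 →
        ({n : ℕ | 1 ≤ n ∧ T2 < ord n ∧ ord n ≤ Y ∧ P n}.ncard : ℝ) ≤
        3 * B * (Y * Real.log Y) := by
      intro Y hY1 hY
      have hemp : {n : ℕ | 1 ≤ n ∧ T2 < ord n ∧ ord n ≤ Y ∧ P n} = ∅ := by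
        rw [Set.eq_empty_iff_forall_notMem]
        rintro n ⟨-, h1, h2, -⟩
        linarith
      rw [hemp, Set.ncard_empty]
      have := Real.log_nonneg hY1
      simp only [Nat.cast_zero]
      positivity
    intro m
    induction m with
    | zero =>
      intro Y hY1 hY
      rw [pow_zero, one_mul] at hY
      exact hsmall Y hY1 hY
    | succ m ih =>
      intro Y hY1 hY
      rcases le_or_gt Y T2 with h | h
      · exact hsmall Y hY1 h
      · have hY20 : 20 ≤ Y := by linarith
        have h1 : (1 : ℝ) ≤ 2 / 3 * Y := by linarith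
        have h2 : 2 / 3 * Y ≤ (3 / 2 : ℝ) ^ m * T2 := by
          rw [pow_succ] at hY
          linarith
        have h3 := ih (2 / 3 * Y) h1 h2
        have h4 := hb (2 / 3 * Y) (by linarith)
        have hlog : Real.log (2 / 3 * Y) ≤ Real.log Y :=
          Real.log_le_log (by linarith) (by linarith)
        have hlog0 : 0 ≤ Real.log (2 / 3 * Y) := Real.log_nonneg h1
        set A1 : Set ℕ := {n : ℕ | 1 ≤ n ∧ T2 < ord n ∧ ord n ≤ 2 / 3 * Y ∧ P n} with hA1
        set A2 : Set ℕ := {n : ℕ | 1 ≤ n ∧ 2 / 3 * Y ≤ ord n ∧ ord n ≤ 3 / 2 * (2 / 3 * Y) ∧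
          P n} with hA2
        have hsub : {n : ℕ | 1 ≤ n ∧ T2 < ord n ∧ ord n ≤ Y ∧ P n} ⊆ A1 ∪ A2 := by
          rintro n ⟨a1, a2, a3, a4⟩
          rcases le_or_gt (ord n) (2 / 3 * Y) with h5 | h5
          · exact Or.inl ⟨a1, a2, h5, a4⟩
          · exact Or.inr ⟨a1, h5.le, by linarith, a4⟩
        have hf1 : A1.Finite := GapAux.fin_ord Y A1 (fun n hn => ⟨hn.1, by linarith [hn.2.2.1]⟩)
        have hf2 : A2.Finite := GapAux.fin_ord Y A2 (fun n hn => ⟨hn.1, by linarith [hn.2.2.1]⟩)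
        have h6 : {n : ℕ | 1 ≤ n ∧ T2 < ord n ∧ ord n ≤ Y ∧ P n}.ncard ≤
            A1.ncard + A2.ncard :=
          (Set.ncard_le_ncard hsub (hf1.union hf2)).trans (Set.ncard_union_le _ _)
        have h7 : ({n : ℕ | 1 ≤ n ∧ T2 < ord n ∧ ord n ≤ Y ∧ P n}.ncard : ℝ) ≤
            A1.ncard + A2.ncard := by exact_mod_cast h6
        refine h7.trans ((add_le_add h3 h4).trans ?_)
        have h8 : 3 * B * (2 / 3 * Y * Real.log (2 / 3 * Y)) + B * (2 / 3 * Y * Real.log (2 / 3 * Y)) =
            8 / 3 * (B * Y) * Real.log (2 / 3 * Y) := by ring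
        rw [h8]
        have h9 : 0 ≤ B * Y := by positivity
        calc 8 / 3 * (B * Y) * Real.log (2 / 3 * Y) ≤ 3 * (B * Y) * Real.log Y := by
              apply mul_le_mul _ hlog hlog0 (by positivity)
              linarith
          _ = _ := by ring
  intro Y hY
  have hlim : Tendsto (fun m : ℕ => (3 / 2 : ℝ) ^ m) atTop atTop :=
    tendsto_pow_atTop_atTop_of_one_lt (by norm_num)
  obtain ⟨m, hm⟩ := (tendsto_atTop.mp hlim (Y / T2)).exists
  rw [div_le_iff₀ hT20] at hm
  exact key m Y hY hm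

/-- the block estimate -/
theorem block (hRH : RHs) : ∃ c C T1 : ℝ, 0 < c ∧ 1 ≤ C ∧ 10 ≤ T1 ∧ ∀ T : ℝ, T1 ≤ T →
    ∀ m : ℕ, C ≤ m →
    ({n : ℕ | 1 ≤ n ∧ T ≤ ord n ∧ ord n ≤ 3 / 2 * T ∧
        ∑ i ∈ Finset.range m, del (n + i) ≤ c * m}.ncard : ℝ) ≤
      C * (C / m) ^ ((m : ℝ) / C) * (T * Real.log T) := by
  classical
  obtain ⟨c0, K, T0, hc0, hK, hT0, hshort⟩ := short_of_sum
  obtain ⟨C1, TB, hC1, hTB, hB⟩ := bulk hRH (2 * K) (by linarith)
  obtain ⟨TL, hTL, hlog⟩ := CTAux.log_ev 4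
  set c : ℝ := min c0 (1 / (64 * C1)) with hc
  have hcpos : 0 < c := lt_min hc0 (by positivity)
  have hcc0 : c ≤ c0 := min_le_left _ _
  have hcC1 : 64 * c * C1 ≤ 1 := by
    have h1 : c ≤ 1 / (64 * C1) := min_le_right _ _
    rw [le_div_iff₀ (by positivity)] at h1
    linarith
  refine ⟨c, 6 * C1, max (max T0 TL) (2 * TB), hcpos, by linarith,
    hT0.trans ((le_max_left _ _).trans (le_max_left _ _)), fun T hT m hmC => ?_⟩
  have hTT0 : T0 ≤ T := ((le_max_left _ _).trans (le_max_left _ _)).trans hT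
  have hTL' : TL ≤ T := ((le_max_right _ _).trans (le_max_left _ _)).trans hT
  have hTB' : 2 * TB ≤ T := (le_max_right _ _).trans hT
  obtain ⟨hL4, hLT⟩ := hlog T hTL'
  have hT200 : 200 ≤ T := by linarith
  have hTpos : 0 < T := by linarith
  set L := Real.log T with hLd
  have hm0 : (0 : ℝ) < m := by linarith
  have hm1 : 1 ≤ m := by
    have : (0 : ℕ) < m := by exact_mod_cast hm0
    omega
  set S := {n : ℕ | 1 ≤ n ∧ T ≤ ord n ∧ ord n ≤ 3 / 2 * T ∧
        ∑ i ∈ Finset.range m, del (n + i) ≤ c * m} with hS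
  have hSfin : S.Finite := GapAux.fin_ord (3 / 2 * T) S fun n hn => ⟨hn.1, hn.2.2.1⟩
  set X := (C1 / m) ^ ((m : ℝ) / C1) with hX
  have hX0 : 0 ≤ X := by positivity
  -- block bound
  have key : ∀ r : ℝ, 7 / 10 ≤ r → r ≤ 13 / 10 → ∀ F : Finset ℕ,
      (∀ n ∈ F, n ∈ S ∧ r * T + 3 * Real.log (r * T) ≤ ord n ∧
        ord n ≤ 2 * (r * T) - 3 * Real.log (r * T)) →
      (F.card : ℝ) ≤ 26 / 10 * C1 * X * (T * L) := by
    intro r hr1 hr2 F hF
    have hrT : TB ≤ r * T := by nlinarith
    have hrT0 : 0 < r * T := by positivity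
    have hrT1 : 100 ≤ r * T := by nlinarith
    have hlog1 : Real.log (3 / 2 * T) ≤ 2 * Real.log (r * T) := by
      have h1 : 3 / 2 * T ≤ (r * T) ^ 2 := by nlinarith
      have h2 := Real.log_le_log (by positivity) h1
      rw [Real.log_pow] at h2
      push_cast at h2
      exact h2
    have hlog2 : Real.log (r * T) ≤ 2 * L := by
      have h1 : r * T ≤ T ^ 2 := by nlinarith
      have h2 := Real.log_le_log hrT0 h1
      rw [Real.log_pow] at h2
      push_cast at h2
      exact h2
    have hlogpos : 0 < Real.log (r * T) := Real.log_pos (by linarith)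
    have hmem : ∀ n ∈ F, (m : ℝ) ≤ 2 * K * Real.log (r * T) ∧
        ord (n + m) - ord n ≤ m / (C1 * Real.log (r * T)) := by
      intro n hn
      obtain ⟨⟨a1, a2, a3, a4⟩, a5, a6⟩ := hF n hn
      obtain ⟨b1, b2, b3⟩ := hshort n m a1 hm1 (hTT0.trans a2) c hcpos.le hcc0 a4
      have h1 : Real.log (ord n) ≤ Real.log (3 / 2 * T) := Real.log_le_log (by linarith) a3
      have h2 : L ≤ Real.log (ord n) := Real.log_le_log hTpos a2
      constructor
      · have : K * Real.log (ord n) ≤ K * (2 * Real.log (r * T)) :=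
          mul_le_mul_of_nonneg_left (h1.trans hlog1) (by linarith)
        linarith
      · refine b3.trans ?_
        rw [div_le_div_iff₀ (by linarith) (by positivity)]
        have h3 : 32 * c * m * (C1 * Real.log (r * T)) = (64 * c * C1) * (m * (Real.log (r * T) / 2)) := by
          ring
        rw [h3]
        have h4 : (64 * c * C1) * (m * (Real.log (r * T) / 2)) ≤ 1 * (m * (Real.log (r * T) / 2)) :=
          mul_le_mul_of_nonneg_right hcC1 (by positivity)
        have h5 : (m : ℝ) * (Real.log (r * T) / 2) ≤ m * Real.log (ord n) :=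
          mul_le_mul_of_nonneg_left (by linarith) hm0.le
        linarith
    by_cases hne : F.Nonempty
    · obtain ⟨n1, hn1⟩ := hne
      have h1 := hB (r * T) hrT m (by linarith) (hmem n1 hn1).1 F (by
        intro n hn
        obtain ⟨⟨a1, a2, a3, a4⟩, a5, a6⟩ := hF n hn
        exact ⟨a1, a5, a6, (hmem n hn).2⟩)
      refine h1.trans ?_
      have h2 : r * T * Real.log (r * T) ≤ 13 / 10 * T * (2 * L) := by
        apply mul_le_mul _ hlog2 hlogpos.le (by positivity)
        exact mul_le_mul_of_nonneg_right hr2 hTpos.le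
      calc C1 * X * (r * T * Real.log (r * T)) ≤ C1 * X * (13 / 10 * T * (2 * L)) :=
            mul_le_mul_of_nonneg_left h2 (by positivity)
        _ = _ := by ring
    · rw [Finset.not_nonempty_iff_eq_empty] at hne
      rw [hne, Finset.card_empty]
      have : 0 ≤ T * L := by positivity
      simp only [Nat.cast_zero]
      positivity
  -- split
  set F1 : Finset ℕ := hSfin.toFinset.filter
    (fun n => ord n ≤ 2 * (7 / 10 * T) - 3 * Real.log (7 / 10 * T)) with hF1
  set F2 : Finset ℕ := hSfin.toFinset.filter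
    (fun n => ¬ (ord n ≤ 2 * (7 / 10 * T) - 3 * Real.log (7 / 10 * T))) with hF2
  have hcard : S.ncard = F1.card + F2.card := by
    rw [Set.ncard_eq_toFinset_card S hSfin, hF1, hF2, Finset.card_filter_add_card_filter_not]
  have hlog7 : Real.log (7 / 10 * T) ≤ L := Real.log_le_log (by positivity) (by linarith)
  have hlog13 : Real.log (13 / 10 * T) ≤ L + 1 := by
    rw [Real.log_mul (by norm_num) hTpos.ne']
    have := Real.log_le_sub_one_of_pos (show (0 : ℝ) < 13 / 10 by norm_num)
    linarith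
  have hb1 : (F1.card : ℝ) ≤ 26 / 10 * C1 * X * (T * L) := by
    apply key (7 / 10) le_rfl (by norm_num)
    intro n hn
    rw [hF1, Finset.mem_filter, Set.Finite.mem_toFinset] at hn
    obtain ⟨⟨a1, a2, a3, a4⟩, a5⟩ := hn
    exact ⟨⟨a1, a2, a3, a4⟩, by linarith, a5⟩
  have hb2 : (F2.card : ℝ) ≤ 26 / 10 * C1 * X * (T * L) := by
    apply key (13 / 10) (by norm_num) le_rfl
    intro n hn
    rw [hF2, Finset.mem_filter, Set.Finite.mem_toFinset] at hn
    obtain ⟨⟨a1, a2, a3, a4⟩, a5⟩ := hn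
    push Not at a5
    exact ⟨⟨a1, a2, a3, a4⟩, by linarith, by linarith⟩
  have htot : (S.ncard : ℝ) ≤ 6 * C1 * X * (T * L) := by
    rw [hcard]
    push_cast
    have : 0 ≤ C1 * X * (T * L) := by positivity
    linarith
  refine htot.trans ?_
  have hXle : X ≤ (6 * C1 / m) ^ ((m : ℝ) / (6 * C1)) := by
    have b1 : 6 * C1 / m ≤ 1 := by rw [div_le_one hm0]; exact hmC
    have b2 : 0 < 6 * C1 / m := by positivity
    calc X ≤ (6 * C1 / m) ^ ((m : ℝ) / C1) := by
          apply Real.rpow_le_rpow (by positivity) _ (by positivity)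
          exact div_le_div_of_nonneg_right (by linarith) hm0.le
      _ ≤ (6 * C1 / m) ^ ((m : ℝ) / (6 * C1)) := by
          apply Real.rpow_le_rpow_of_exponent_ge b2 b1
          exact div_le_div_of_nonneg_left hm0.le (by linarith) (by linarith)
  apply mul_le_mul_of_nonneg_right _ (by positivity)
  exact mul_le_mul_of_nonneg_left hXle (by positivity)

open GapAux in
/-- sums of `m` consecutive unfolded gaps are rarely smaller than `c m` -/
theorem cluster_uniform (hRH : RHs) : ∃ c : ℝ, 0 < c ∧ ∃ m0 : ℕ, 1 ≤ m0 ∧ ∀ N : ℕ, 1 ≤ N →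
    ∀ m : ℕ, m0 ≤ m →
    ({n : ℕ | 1 ≤ n ∧ n ≤ N ∧ ∑ i ∈ Finset.range m, del (n + i) ≤ c * m}.ncard : ℝ) ≤
      N * Real.exp (-c * m * Real.log m) := by
  obtain ⟨c2, C, T1, hc2, hC, hT1, hblock⟩ := block hRH
  obtain ⟨c0, K, T0, hc0, hK, hT0, hshort⟩ := short_of_sum
  obtain ⟨c1, T2, hc1, hT2, hlow⟩ := NZ_low
  have hCpos : 0 < C := by linarith
  set T3 : ℝ := max (max T0 (2 * T1)) (3 * T2 + 3) with hT3
  have hT30 : T0 ≤ T3 := (le_max_left _ _).trans (le_max_left _ _)
  have hT31 : 2 * T1 ≤ T3 := (le_max_right _ _).trans (le_max_left _ _)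
  have hT32 : 3 * T2 + 3 ≤ T3 := le_max_right _ _
  set c : ℝ := min (min c2 (c0 / 2)) (1 / (4 * C)) with hc
  have hcpos : 0 < c := lt_min (lt_min hc2 (by positivity)) (by positivity)
  have hcc2 : c ≤ c2 := (min_le_left _ _).trans (min_le_left _ _)
  have hcc0 : 2 * c ≤ c0 := by
    have : c ≤ c0 / 2 := (min_le_left _ _).trans (min_le_right _ _)
    linarith
  have hcC : c ≤ 1 / (4 * C) := min_le_right _ _
  -- small indices
  set n3 : ℕ := NZ T3 + 1 with hn3
  have hordn3 : T3 < ord n3 := by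
    by_contra hcon
    push Not at hcon
    have := (SG.ord_le_iff (by omega : 1 ≤ n3) T3).mp hcon
    omega
  set M : ℝ := ∑ n ∈ Finset.Icc 1 n3, |del n| with hM
  have hM0 : 0 ≤ M := Finset.sum_nonneg fun n _ => abs_nonneg _
  set K1 : ℝ := 9 * C * (2 / c1) with hK1
  have hK1pos : 0 < K1 := by positivity
  set y0 : ℝ := max (max (n3 + K * Real.log (ord n3) + 1) ((M + 2 * c * n3) / c + 1))
    (max (max (C ^ 2) C) (max (4 * C * |Real.log K1|) 3)) with hy0
  have hy1 : n3 + K * Real.log (ord n3) + 1 ≤ y0 := (le_max_left _ _).trans (le_max_left _ _)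
  have hy2 : (M + 2 * c * n3) / c + 1 ≤ y0 := (le_max_right _ _).trans (le_max_left _ _)
  have hy3 : C ^ 2 ≤ y0 := ((le_max_left _ _).trans (le_max_left _ _)).trans (le_max_right _ _)
  have hy4 : C ≤ y0 := ((le_max_right _ _).trans (le_max_left _ _)).trans (le_max_right _ _)
  have hy5 : 4 * C * |Real.log K1| ≤ y0 :=
    ((le_max_left _ _).trans (le_max_right _ _)).trans (le_max_right _ _)
  have hy6 : 3 ≤ y0 := ((le_max_right _ _).trans (le_max_right _ _)).trans (le_max_right _ _)
  refine ⟨c, hcpos, ⌈y0⌉₊, ?_, fun N hN m hm => ?_⟩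
  · have : (0 : ℝ) < ⌈y0⌉₊ := lt_of_lt_of_le (by linarith) (Nat.le_ceil y0)
    exact_mod_cast this
  have hym : y0 ≤ m := (Nat.le_ceil y0).trans (by exact_mod_cast hm)
  have hm3 : (3 : ℝ) ≤ m := hy6.trans hym
  have hmpos : (0 : ℝ) < m := by linarith
  have hm1 : 1 ≤ m := by
    have : (1 : ℝ) ≤ m := by linarith
    exact_mod_cast this
  have hlogm : 1 ≤ Real.log m := by
    rw [Real.le_log_iff_exp_le hmpos]
    have := Real.exp_one_lt_d9
    linarith
  set Y : ℝ := ord N with hYdef
  set S : Set ℕ := {n : ℕ | 1 ≤ n ∧ n ≤ N ∧ ∑ i ∈ Finset.range m, del (n + i) ≤ c * m} with hS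
  -- members of `S` have large ordinates
  have hbig : ∀ n ∈ S, T3 < ord n := by
    rintro n ⟨a1, a2, a3⟩
    by_contra hcon
    push Not at hcon
    have h1 : n ≤ NZ T3 := (SG.ord_le_iff a1 T3).mp hcon
    set d : ℕ := n3 - n with hd
    have hnd : n + d = n3 := by omega
    have hdn : d ≤ n3 := by omega
    have hdm : n3 < m := by
      have h2 : 0 ≤ K * Real.log (ord n3) :=
        mul_nonneg (by linarith) (Real.log_nonneg (by linarith))
      have : (n3 : ℝ) < m := by linarith
      exact_mod_cast this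
    set m' : ℕ := m - d with hm'
    have hmm : m = d + m' := by omega
    have hm'1 : 1 ≤ m' := by omega
    have hsplit : ∑ i ∈ Finset.range m, del (n + i) =
        ∑ i ∈ Finset.range d, del (n + i) + ∑ i ∈ Finset.range m', del (n3 + i) := by
      rw [hmm, Finset.sum_range_add]
      congr 1
      apply Finset.sum_congr rfl
      intro i _
      congr 1
      omega
    have hpart : -M ≤ ∑ i ∈ Finset.range d, del (n + i) := by
      have h2 : |∑ i ∈ Finset.range d, del (n + i)| ≤ M := by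
        refine (Finset.abs_sum_le_sum_abs _ _).trans ?_
        have h3 : ∑ i ∈ Finset.range d, |del (n + i)| =
            ∑ j ∈ (Finset.range d).image (fun i => n + i), |del j| := by
          rw [Finset.sum_image]
          intro a _ b _ hab
          simp only at hab
          omega
        rw [h3]
        apply Finset.sum_le_sum_of_subset_of_nonneg
        · intro j hj
          rw [Finset.mem_image] at hj
          obtain ⟨i, hi, rfl⟩ := hj
          rw [Finset.mem_range] at hi
          rw [Finset.mem_Icc]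
          omega
        · intro j _ _
          exact abs_nonneg _
      exact (abs_le.mp h2).1
    have hm'r : (m' : ℝ) = m - d := by
      rw [hm', Nat.cast_sub (by omega)]
    have hdr : (d : ℝ) ≤ n3 := by exact_mod_cast hdn
    have h2 : ∑ i ∈ Finset.range m', del (n3 + i) ≤ 2 * c * m' := by
      have h3 : (M + 2 * c * n3) / c ≤ m := by linarith
      rw [div_le_iff₀ hcpos] at h3
      rw [hsplit] at a3
      rw [hm'r]
      have h4 : 2 * c * d ≤ 2 * c * n3 := mul_le_mul_of_nonneg_left hdr (by positivity)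
      nlinarith
    obtain ⟨b1, -, -⟩ := hshort n3 m' (by omega) hm'1 (hT30.trans hordn3.le) (2 * c) (by positivity)
      hcc0 h2
    linarith
  have hRpos : 0 ≤ (N : ℝ) * Real.exp (-c * m * Real.log m) := by positivity
  by_cases hYT : Y ≤ T3
  · have hemp : S = ∅ := by
      rw [Set.eq_empty_iff_forall_notMem]
      intro n hn
      have h1 := hbig n hn
      have h2 : ord n ≤ Y := SG.ord_mono hn.1 hn.2.1
      linarith
    rw [hemp, Set.ncard_empty]
    simpa using hRpos
  · push Not at hYT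
    have hYpos : 0 < Y := by linarith
    set B : ℝ := C * (C / m) ^ ((m : ℝ) / C) with hB
    have hB0 : 0 ≤ B := by positivity
    have h1 := sum_blocks (fun n => ∑ i ∈ Finset.range m, del (n + i) ≤ c2 * m) B T1 hB0 hT1
      (fun T hT => hblock T hT m (hy4.trans hym)) T3 hT31 Y (by linarith)
    have hsub : S ⊆ {n : ℕ | 1 ≤ n ∧ T3 < ord n ∧ ord n ≤ Y ∧
        ∑ i ∈ Finset.range m, del (n + i) ≤ c2 * m} := by
      intro n hn
      exact ⟨hn.1, hbig n hn, SG.ord_mono hn.1 hn.2.1,
        hn.2.2.trans (mul_le_mul_of_nonneg_right hcc2 hmpos.le)⟩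
    have hfin : {n : ℕ | 1 ≤ n ∧ T3 < ord n ∧ ord n ≤ Y ∧
        ∑ i ∈ Finset.range m, del (n + i) ≤ c2 * m}.Finite :=
      fin_ord Y _ (fun n hn => ⟨hn.1, hn.2.2.1⟩)
    have h2 : (S.ncard : ℝ) ≤ 3 * B * (Y * Real.log Y) := by
      refine le_trans ?_ h1
      exact_mod_cast Set.ncard_le_ncard hsub hfin
    -- `N` against `Y log Y`
    have h3 := hlow (Y / 3) (by linarith)
    have h4 : NZ (2 * (Y / 3)) < N := by
      by_contra hcon
      push Not at hcon
      have h5 : ord N ≤ 2 * (Y / 3) := (SG.ord_le_iff hN _).mpr hcon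
      rw [← hYdef] at h5
      linarith
    have h5 : (NZ (2 * (Y / 3)) : ℝ) ≤ N := by exact_mod_cast h4.le
    have h6 : Real.log Y ≤ 2 * Real.log (Y / 3) := by
      have h7 : Y ≤ (Y / 3) ^ 2 := by nlinarith
      have h8 := Real.log_le_log hYpos h7
      rw [Real.log_pow] at h8
      push_cast at h8
      exact h8
    have h9 : Y * Real.log Y ≤ 3 * (2 / c1) * N := by
      have h10 : c1 * (Y / 3 * Real.log (Y / 3)) ≤ N := h3.trans h5
      have h11 : Y * Real.log Y ≤ Y * (2 * Real.log (Y / 3)) := mul_le_mul_of_nonneg_left h6 hYpos.le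
      have h12 : Y * (2 * Real.log (Y / 3)) = 3 * (2 / c1) * (c1 * (Y / 3 * Real.log (Y / 3))) := by
        field_simp
      rw [h12] at h11
      refine h11.trans (mul_le_mul_of_nonneg_left h10 (by positivity))
    -- the exponential
    have h13 : (C / m) ^ ((m : ℝ) / C) ≤ Real.exp (-(1 / (2 * C)) * m * Real.log m) := by
      rw [Real.rpow_def_of_pos (by positivity)]
      apply Real.exp_le_exp.2
      have h14 : Real.log (C / m) ≤ -(1 / 2) * Real.log m := by
        rw [Real.log_div (by positivity) hmpos.ne']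
        have h15 : Real.log (C ^ 2) ≤ Real.log m := Real.log_le_log (by positivity) (by linarith)
        rw [Real.log_pow] at h15
        push_cast at h15
        linarith
      have h16 := mul_le_mul_of_nonneg_right h14 (show 0 ≤ (m : ℝ) / C by positivity)
      refine h16.trans (le_of_eq ?_)
      field_simp
    have h17 : K1 ≤ Real.exp (1 / (4 * C) * m * Real.log m) := by
      rw [← Real.log_le_iff_le_exp hK1pos]
      have h18 : Real.log K1 ≤ 1 / (4 * C) * m := by
        have h19 : 4 * C * |Real.log K1| ≤ m := hy5.trans hym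
        have h20 := le_abs_self (Real.log K1)
        rw [show 1 / (4 * C) * (m : ℝ) = m / (4 * C) by ring, le_div_iff₀ (by positivity)]
        nlinarith
      have h21 : 0 ≤ 1 / (4 * C) * (m : ℝ) := by positivity
      nlinarith
    have h22 : 0 ≤ (C / m) ^ ((m : ℝ) / C) := by positivity
    calc (S.ncard : ℝ) ≤ 3 * B * (Y * Real.log Y) := h2
      _ ≤ 3 * B * (3 * (2 / c1) * N) :=
          mul_le_mul_of_nonneg_left h9 (by positivity)
      _ = N * (K1 * (C / m) ^ ((m : ℝ) / C)) := by rw [hK1, hB]; ring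
      _ ≤ N * (Real.exp (1 / (4 * C) * m * Real.log m) *
            Real.exp (-(1 / (2 * C)) * m * Real.log m)) := by
          apply mul_le_mul_of_nonneg_left _ (Nat.cast_nonneg _)
          exact mul_le_mul h17 h13 h22 (Real.exp_pos _).le
      _ = N * Real.exp (-(1 / (4 * C)) * m * Real.log m) := by
          rw [← Real.exp_add]
          congr 2
          field_simp
          ring
      _ ≤ N * Real.exp (-c * m * Real.log m) := by
          apply mul_le_mul_of_nonneg_left _ (Nat.cast_nonneg _)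
          apply Real.exp_le_exp.mpr
          have h23 : 0 ≤ (m : ℝ) * Real.log m := by positivity
          have h24 := mul_le_mul_of_nonneg_right hcC h23
          linarith

end CU

end LG
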